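import Mathlib
import Pool.Agent.Y298.GA.Stm

/-!
# Project GA (helper298): passage near the critical point along a slow family

Adaptation of `Pool/Agent/Y220/CA/BI.lean` of helper220.
-/

set_option autoImplicit false

open Set Filter Metric MeasureTheory

namespace Pool.Agent.Y500.GA

open Pool.Agent.TH279.MD Pool.Agent.Y298.SH Pool.Agent.Y298.SH.CD Pool.Agent.Y298.GA
open Pool.Agent.Y298.SH.CE (geom_part)

/-- The passage near the critical point along a slow family. -/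
theorem bi (hpush : Pool.Agent.Y298.GA.S_PUSH) : Pool.Agent.Y298.GA.S_BI := by
  intro d C₁ lam θ B Ca hd hC1 hlam hθ hPC
  have hdR : (2 : ℝ) ≤ d := by exact_mod_cast hd
  have hB1 : 1 ≤ B := hPC.Ca1.trans hPC.CaB
  have hθ0 : 0 < θ := by linarith
  have hl0 : 0 < lam := by linarith
  have hiθ : 0 < 1 / θ := by positivity
  have hiθ1 : 1 / θ < 1 := by rw [div_lt_one hθ0]; exact hθ
  have hil : 0 < 1 / lam := by positivity
  have hil1 : 1 / lam < 1 := by rw [div_lt_one hl0]; exact hlam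
  have hBbig := hPC.Bbig
  obtain ⟨Sθ, hSθ⟩ : ∃ Sθ : ℝ, Sθ = 1 / (1 - 1 / θ) := ⟨_, rfl⟩
  obtain ⟨Sl, hSl⟩ : ∃ Sl : ℝ, Sl = 1 / (1 - 1 / lam) := ⟨_, rfl⟩
  rw [← hSθ] at hBbig
  have hSθ1 : 1 ≤ Sθ := by
    have h1 : 0 < 1 - 1 / θ := by linarith
    rw [hSθ, le_div_iff₀ h1]
    linarith
  have hSθ0 : 0 < Sθ := by linarith
  have hSl0 : 0 < Sl := by
    have : 0 < 1 - 1 / lam := by linarith
    rw [hSl]
    positivity
  obtain ⟨K, hK⟩ : ∃ K : ℝ, K = (16 * d ^ 2 * θ + 4) * Sθ + 2 * C₁ * Sl := ⟨_, rfl⟩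
  have hK0 : 0 < K := by rw [hK]; positivity
  obtain ⟨ε, hε⟩ : ∃ ε : ℝ, ε = min (1 / (16 * K)) (1 / (12 * d ^ 2)) := ⟨_, rfl⟩
  have hε0 : 0 < ε := by rw [hε]; exact lt_min (by positivity) (by positivity)
  have hε1 : ε * K ≤ 1 / 16 := by
    have h1 : ε ≤ 1 / (16 * K) := by rw [hε]; exact min_le_left _ _
    calc ε * K ≤ 1 / (16 * K) * K := mul_le_mul_of_nonneg_right h1 hK0.le
      _ = 1 / 16 := by field_simp
  have hε2 : ε * (12 * d ^ 2) ≤ 1 := by
    have h1 : ε ≤ 1 / (12 * d ^ 2) := by rw [hε]; exact min_le_right _ _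
    calc ε * (12 * d ^ 2) ≤ 1 / (12 * d ^ 2) * (12 * d ^ 2) :=
          mul_le_mul_of_nonneg_right h1 (by positivity)
      _ = 1 := by field_simp
  have hd2 : (1 : ℝ) ≤ (d : ℝ) ^ 2 := one_le_pow₀ (by linarith)
  have hε8 : ε ≤ 1 / 8 := by
    have h1 : ε * 12 ≤ ε * (12 * d ^ 2) := by gcongr; linarith
    linarith
  obtain ⟨E, hE⟩ : ∃ E : ℝ, E = 2 ^ d * d * C₁ / B := ⟨_, rfl⟩
  have hB0 : 0 < B := by linarith
  have hd0 : (0 : ℝ) < d := by linarith
  have hC0 : 0 < C₁ := by linarith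
  have hE0 : 0 < E := by rw [hE]; positivity
  have hEB : E * B = 2 ^ d * d * C₁ := by rw [hE]; field_simp
  have hES : E * Sθ ≤ 1 / 512 := by
    rw [hE, div_mul_eq_mul_div, div_le_iff₀ hB0]
    have h1 : (2 : ℝ) ^ (d + 9) = 2 ^ d * 512 := by rw [pow_add]; norm_num
    rw [h1] at hBbig
    linarith
  refine ⟨ε, hε0, by linarith, ?_⟩
  intro c₁ hc s ρ r κ k n h w hs hs1 hρ hk H hrs hn4 hx hw0 hD0 hdiff hstart hDρ hκ hrx
  have hww : w ∈ ball w ρ := mem_ball_self hρ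
  have hr0 : 0 ≤ r := (norm_nonneg _).trans (H.near w hww 0 (mem_ball_self (by norm_num)))
  obtain ⟨x, hxd⟩ : ∃ x : ℝ, x = ‖GG d h n w‖ := ⟨_, rfl⟩
  obtain ⟨D, hDd⟩ : ∃ D : ℝ, D = ‖DD d h n w‖ := ⟨_, rfl⟩
  rw [← hxd, ← hDd] at hDρ hκ
  rw [← hxd] at hx hrx
  rw [← hxd, ← hDd]
  have hx0 : 0 < x := by rw [hxd]; exact norm_pos_iff.2 hw0
  have hD00 : 0 < D := by rw [hDd]; exact norm_pos_iff.2 hD0
  have hn8 : ∀ j ≤ n, GG d h j w ∈ ball (0 : ℂ) 8 := by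
    intro j hj
    rw [mem_ball_zero_iff]
    linarith [hn4 j hj]
  -- the point v
  obtain ⟨v, hvd⟩ : ∃ v : ℂ, v = GG d h (n + 1) w := ⟨_, rfl⟩
  have hv : v ∈ ball c₁ (2 * s) := by
    rw [mem_ball, dist_eq_norm, hvd, GG_succ, add_sub_assoc]
    refine (norm_add_le _ _).trans_lt ?_
    have h1 := H.near w hww _ (hn8 n le_rfl)
    rw [norm_pow, ← hxd]
    linarith
  have hpass := fun j (hj : j ≤ k) => hPC.pass c₁ hc (h w) s k hs hs1
    (fun z hz => (H.diff2 hww hz).differentiableWithinAt)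
    (fun z hz => (H.near w hww z hz).trans hrs)
    (fun z hz => (H.vert w hww z hz).trans hrs) hk v hv j hj
  have hFeq : (fun z => z ^ d + h w z) = F d h w := rfl
  rw [hFeq] at hpass
  have hGv : ∀ i, GG d h (n + 1 + i) w = (F d h w)^[i] v := by
    intro i
    rw [add_comm (n + 1) i, GG_add, ← hvd]
  have hv4 : ∀ i < k, ‖(F d h w)^[i] v‖ ≤ 4 := by
    intro i hi
    obtain ⟨-, -, -, h1⟩ := hpass i hi.le
    have h2 := h1 hi
    have h3 := hc.bd i
    calc ‖(F d h w)^[i] v‖ = ‖((F d h w)^[i] v - zz d c₁ i) + zz d c₁ i‖ := by congr 1; ring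
      _ ≤ ‖(F d h w)^[i] v - zz d c₁ i‖ + ‖zz d c₁ i‖ := norm_add_le _ _
      _ ≤ 4 := by linarith
  have hn4' : ∀ j < n + 1 + k, ‖GG d h j w‖ ≤ 4 := by
    intro j hj
    rcases Nat.lt_or_ge n j with h1 | h1
    · obtain ⟨i, rfl⟩ : ∃ i, j = n + 1 + i := ⟨j - (n + 1), by omega⟩
      rw [hGv]
      exact hv4 i (by omega)
    · exact hn4 j h1
  have hn8' : ∀ j < n + 1 + k, GG d h j w ∈ ball (0 : ℂ) 8 := by
    intro j hj
    rw [mem_ball_zero_iff]
    linarith [hn4' j hj]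
  have hDv : ∀ i ≤ k, DD d h (n + 1 + i) w = deriv ((F d h w)^[i]) v * DD d h (n + 1) w := by
    intro i
    induction i with
    | zero =>
      intro _
      rw [Function.iterate_zero, deriv_id, one_mul, add_zero]
    | succ i ih =>
      intro hi
      have h1 := ih (by omega)
      have h2 := H.DD_succ d hww (n := n + 1 + i) fun j hj => hn8' j (by omega)
      have h3 := H.derivF d hww (x := v) (n := i) fun j hj => by
        rw [← hGv]
        exact hn8' _ (by omega)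
      rw [show n + 1 + (i + 1) = n + 1 + i + 1 by ring, h2, h3, h1, hGv]
      ring
  have hD1 := H.DD_succ d hww (n := n) fun j hj => hn8 j hj
  obtain ⟨p, hp⟩ : ∃ p : ℂ, p = deriv (h w) (GG d h n w) := ⟨_, rfl⟩
  rw [← hp] at hD1
  have hpε : ‖p‖ ≤ ε * x ^ (d - 1) := by
    rw [hp]
    exact (H.vert w hww _ (hn8 n le_rfl)).trans hrx
  have hdx : ‖(d : ℂ) * GG d h n w ^ (d - 1)‖ = d * x ^ (d - 1) := by
    rw [norm_mul, Complex.norm_natCast, norm_pow, ← hxd]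
  have hP := hc.Pd_pos
  have hxx : x ^ (d - 1) * x = x ^ d := by
    rw [← pow_succ]
    congr 1
    omega
  have hxp : 0 < x ^ (d - 1) := by positivity
  have hD1u : ‖DD d h (n + 1) w‖ ≤ 3 / 2 * d * x ^ (d - 1) * D := by
    rw [hD1, norm_mul, ← hDd]
    have h1 : ‖(d : ℂ) * GG d h n w ^ (d - 1) + p‖ ≤ 3 / 2 * d * x ^ (d - 1) := by
      calc ‖(d : ℂ) * GG d h n w ^ (d - 1) + p‖ ≤ ‖(d : ℂ) * GG d h n w ^ (d - 1)‖ + ‖p‖ :=
            norm_add_le _ _
        _ ≤ d * x ^ (d - 1) + ε * x ^ (d - 1) := by rw [hdx]; gcongr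
        _ = (d + ε) * x ^ (d - 1) := by ring
        _ ≤ (3 / 2 * d) * x ^ (d - 1) := by
            apply mul_le_mul_of_nonneg_right _ hxp.le
            linarith
    gcongr
  have hD1l : 4 / 3 * x ^ (d - 1) * D ≤ ‖DD d h (n + 1) w‖ := by
    rw [hD1, norm_mul, ← hDd]
    have h1 : 4 / 3 * x ^ (d - 1) ≤ ‖(d : ℂ) * GG d h n w ^ (d - 1) + p‖ := by
      have h2 : ‖(d : ℂ) * GG d h n w ^ (d - 1)‖ ≤ ‖(d : ℂ) * GG d h n w ^ (d - 1) + p‖ + ‖p‖ := by
        calc ‖(d : ℂ) * GG d h n w ^ (d - 1)‖ = ‖((d : ℂ) * GG d h n w ^ (d - 1) + p) - p‖ := by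
              congr 1; ring
          _ ≤ _ := norm_sub_le _ _
      rw [hdx] at h2
      have h3 : (4 / 3 + ε) * x ^ (d - 1) ≤ d * x ^ (d - 1) := by
        apply mul_le_mul_of_nonneg_right _ hxp.le
        linarith
      linarith
    gcongr
  -- upper bound for the derivatives
  have hup : ∀ i ≤ k, ‖DD d h (n + 1 + i) w‖ * ρ ≤ 3 * d * ε * (s * Pd d c₁ i) := by
    intro i hi
    obtain ⟨-, -, h1, -⟩ := hpass i hi
    have hPi := hP i
    rw [hDv i hi, norm_mul]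
    calc ‖deriv ((F d h w)^[i]) v‖ * ‖DD d h (n + 1) w‖ * ρ
        ≤ (2 * Pd d c₁ i) * (3 / 2 * d * x ^ (d - 1) * D) * ρ := by gcongr
      _ = 3 * Pd d c₁ i * (d * x ^ (d - 1)) * (D * ρ) := by ring
      _ ≤ 3 * Pd d c₁ i * (d * x ^ (d - 1)) * (ε * x) := by gcongr
      _ = 3 * d * ε * (x ^ (d - 1) * x * Pd d c₁ i) := by ring
      _ = 3 * d * ε * (x ^ d * Pd d c₁ i) := by rw [hxx]
      _ ≤ 3 * d * ε * (s * Pd d c₁ i) := by gcongr
  have hlow : ∀ i ≤ k, Pd d c₁ i * (x ^ (d - 1) * D) ≤ ‖DD d h (n + 1 + i) w‖ := by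
    intro i hi
    obtain ⟨-, h1, -, -⟩ := hpass i hi
    have hPi := hP i
    rw [hDv i hi, norm_mul]
    calc Pd d c₁ i * (x ^ (d - 1) * D) = (3 / 4 * Pd d c₁ i) * (4 / 3 * x ^ (d - 1) * D) := by ring
      _ ≤ ‖deriv ((F d h w)^[i]) v‖ * ‖DD d h (n + 1) w‖ := by gcongr
  have hB0' : ∀ j, 1 ≤ B * θ ^ j := fun j => by
    exact one_le_mul_of_one_le_of_one_le hB1 (one_le_pow₀ hθ.le)
  have h34 : ∀ l < k, 3 / 4 * ‖zz d c₁ l‖ ≤ ‖(F d h w)^[l] v‖ := by
    intro l hl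
    obtain ⟨-, -, -, h1⟩ := hpass l hl.le
    have h2 := h1 hl
    have h4 : ‖zz d c₁ l‖ ≤ ‖(F d h w)^[l] v‖ + ‖(F d h w)^[l] v - zz d c₁ l‖ := by
      calc ‖zz d c₁ l‖ = ‖(F d h w)^[l] v - ((F d h w)^[l] v - zz d c₁ l)‖ := by congr 1; ring
        _ ≤ _ := norm_sub_le _ _
    linarith
  have hθθ : ∀ l : ℕ, (1 / θ) ^ l * θ ^ l = 1 := by
    intro l
    rw [← mul_pow, one_div, inv_mul_cancel₀ hθ0.ne', one_pow]
  have hmain := hpush d c₁ r κ h w ρ n (n + 1 + k) (fun j => 4 * d * θ * ε * (1 / θ) ^ (j - n))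
      (fun j => 2 * C₁ * ε * (1 / lam) ^ (j - n))
      (fun j => ε * (1 / θ) ^ (j - n) + E * (1 / θ) ^ (j - n - 1)) hd hρ H (by omega)
      hdiff hstart (fun j => by positivity) (fun j => by positivity) (fun j => by positivity)
      hn4' ?_ ?_ ?_ ?_
  · refine ⟨hmain.1, hmain.2, ?_, ?_⟩
    · refine le_trans (le_of_eq ?_) (hlow k le_rfl)
      ring
    · refine (hup k le_rfl).trans ?_
      have h1 : s * Pd d c₁ k ≤ 4 * d := by
        rcases Nat.eq_zero_or_pos k with rfl | hk0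
        · rw [Pd_zero]
          linarith
        · obtain ⟨j, rfl⟩ : ∃ j, k = j + 1 := ⟨k - 1, by omega⟩
          have h2 := hk j (by omega)
          have hPj := hP j
          have h3 : s * Pd d c₁ j ≤ ‖zz d c₁ j‖ := by
            calc s * Pd d c₁ j ≤ B * θ ^ j * (s * Pd d c₁ j) :=
                  le_mul_of_one_le_left (by positivity) (hB0' j)
              _ = B * θ ^ j * s * Pd d c₁ j := by ring
              _ ≤ _ := h2
          have h4 : ‖zz d c₁ j‖ ^ d ≤ 4 := by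
            have h5 : zz d c₁ j ^ d = zz d c₁ (j + 1) - zz d c₁ 0 := by
              rw [zz_succ, zz_zero]
              ring
            rw [← norm_pow, h5]
            refine (norm_sub_le _ _).trans ?_
            linarith [hc.bd (j + 1), hc.bd 0]
          have h5 : ‖zz d c₁ j‖ ^ (d - 1) * ‖zz d c₁ j‖ = ‖zz d c₁ j‖ ^ d := by
            rw [← pow_succ]
            congr 1
            omega
          rw [Pd_succ]
          calc s * (d * ‖zz d c₁ j‖ ^ (d - 1) * Pd d c₁ j)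
              = d * ‖zz d c₁ j‖ ^ (d - 1) * (s * Pd d c₁ j) := by ring
            _ ≤ d * ‖zz d c₁ j‖ ^ (d - 1) * ‖zz d c₁ j‖ := by gcongr
            _ = d * (‖zz d c₁ j‖ ^ (d - 1) * ‖zz d c₁ j‖) := by ring
            _ = d * ‖zz d c₁ j‖ ^ d := by rw [h5]
            _ ≤ d * 4 := by gcongr
            _ = _ := by ring
      calc 3 * d * ε * (s * Pd d c₁ k) ≤ 3 * d * ε * (4 * d) := by gcongr
        _ = ε * (12 * d ^ 2) := by ring
        _ ≤ 1 := hε2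
        _ ≤ 5 := by norm_num
  · intro j hj1 hj2
    obtain ⟨i, rfl⟩ : ∃ i, j = n + i := ⟨j - n, by omega⟩
    show ‖DD d h (n + i) w‖ * ρ ≤ 4 * d * θ * ε * (1 / θ) ^ (n + i - n) * ‖GG d h (n + i) w‖
    rw [Nat.add_sub_cancel_left]
    rcases Nat.eq_zero_or_pos i with rfl | hi
    · rw [add_zero, pow_zero, mul_one, ← hDd, ← hxd]
      refine hDρ.trans ?_
      have h1 : 1 ≤ 4 * d * θ := by
        have h2 : 1 ≤ (d : ℝ) * θ := one_le_mul_of_one_le_of_one_le (by linarith) hθ.le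
        linarith
      calc ε * x = 1 * (ε * x) := by ring
        _ ≤ 4 * d * θ * (ε * x) := mul_le_mul_of_nonneg_right h1 (by positivity)
        _ = _ := by ring
    · obtain ⟨l, rfl⟩ : ∃ l, i = l + 1 := ⟨i - 1, by omega⟩
      have hl : l < k := by omega
      have e1 : n + (l + 1) = n + 1 + l := by ring
      rw [e1, hGv]
      refine (hup l hl.le).trans ?_
      have h3 := h34 l hl
      have h4 := hk l hl
      have hPl := hP l
      have h5 : θ ^ l * (s * Pd d c₁ l) ≤ 4 / 3 * ‖(F d h w)^[l] v‖ := by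
        calc θ ^ l * (s * Pd d c₁ l) ≤ B * (θ ^ l * (s * Pd d c₁ l)) :=
              le_mul_of_one_le_left (by positivity) hB1
          _ = B * θ ^ l * s * Pd d c₁ l := by ring
          _ ≤ ‖zz d c₁ l‖ := h4
          _ ≤ _ := by linarith
      have h6 : s * Pd d c₁ l ≤ 4 / 3 * ((1 / θ) ^ l * ‖(F d h w)^[l] v‖) := by
        calc s * Pd d c₁ l = (1 / θ) ^ l * θ ^ l * (s * Pd d c₁ l) := by rw [hθθ, one_mul]
          _ = (1 / θ) ^ l * (θ ^ l * (s * Pd d c₁ l)) := by ring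
          _ ≤ (1 / θ) ^ l * (4 / 3 * ‖(F d h w)^[l] v‖) := by gcongr
          _ = _ := by ring
      have h8 : θ * (1 / θ) ^ (l + 1) = (1 / θ) ^ l := by
        rw [pow_succ]
        field_simp
      calc 3 * d * ε * (s * Pd d c₁ l)
          ≤ 3 * d * ε * (4 / 3 * ((1 / θ) ^ l * ‖(F d h w)^[l] v‖)) := by gcongr
        _ = (4 * (d * ε)) * ((1 / θ) ^ l * ‖(F d h w)^[l] v‖) := by ring
        _ = (4 * (d * ε)) * (θ * (1 / θ) ^ (l + 1) * ‖(F d h w)^[l] v‖) := by rw [h8]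
        _ = 4 * d * θ * ε * (1 / θ) ^ (l + 1) * ‖(F d h w)^[l] v‖ := by ring
  · intro j hj1 hj2
    obtain ⟨i, rfl⟩ : ∃ i, j = n + i := ⟨j - n, by omega⟩
    show κ ≤ 2 * C₁ * ε * (1 / lam) ^ (n + i - n) * ‖DD d h (n + i + 1) w‖
    have e1 : n + i + 1 = n + 1 + i := by ring
    rw [Nat.add_sub_cancel_left, e1]
    refine hκ.trans ?_
    have h1 := hlow i (by omega)
    have h2 := hc.exp i
    have hPi := hP i
    have h3 : 1 ≤ C₁ * (1 / lam) ^ i * Pd d c₁ i := by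
      have h7 : (1 / lam) ^ i * lam ^ i = 1 := by
        rw [← mul_pow, one_div, inv_mul_cancel₀ hl0.ne', one_pow]
      calc 1 = (1 / lam) ^ i * lam ^ i := h7.symm
        _ ≤ (1 / lam) ^ i * (C₁ * Pd d c₁ i) := by gcongr
        _ = _ := by ring
    have h4 : 0 ≤ ε * (x ^ (d - 1) * D) := by positivity
    calc ε * (x ^ (d - 1) * D) ≤ (C₁ * (1 / lam) ^ i * Pd d c₁ i) * (ε * (x ^ (d - 1) * D)) :=
          le_mul_of_one_le_left h4 h3
      _ = C₁ * ε * (1 / lam) ^ i * (Pd d c₁ i * (x ^ (d - 1) * D)) := by ring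
      _ ≤ C₁ * ε * (1 / lam) ^ i * ‖DD d h (n + 1 + i) w‖ := by gcongr
      _ ≤ 2 * (C₁ * ε * (1 / lam) ^ i * ‖DD d h (n + 1 + i) w‖) := by
          have : 0 ≤ C₁ * ε * (1 / lam) ^ i * ‖DD d h (n + 1 + i) w‖ := by positivity
          linarith
      _ = _ := by ring
  · intro j hj1 hj2
    obtain ⟨i, rfl⟩ : ∃ i, j = n + i := ⟨j - n, by omega⟩
    show r ≤ (ε * (1 / θ) ^ (n + i - n) + E * (1 / θ) ^ (n + i - n - 1)) *
      ‖GG d h (n + i) w‖ ^ (d - 1)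
    rw [Nat.add_sub_cancel_left]
    rcases Nat.eq_zero_or_pos i with rfl | hi
    · rw [add_zero, pow_zero, mul_one, ← hxd]
      refine hrx.trans ?_
      have h1 : 0 ≤ E * (1 / θ) ^ (0 - 1) * x ^ (d - 1) := by positivity
      rw [add_mul]
      linarith
    · obtain ⟨l, rfl⟩ : ∃ l, i = l + 1 := ⟨i - 1, by omega⟩
      have hl : l < k := by omega
      have e1 : n + (l + 1) = n + 1 + l := by ring
      rw [e1, hGv, Nat.add_sub_cancel]
      have h3 := h34 l hl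
      have h4 := hk l hl
      have hPl := hP l
      have h5 := hc.exp (l + 1)
      rw [Pd_succ] at h5
      have h6 : (1 : ℝ) ≤ lam ^ (l + 1) := one_le_pow₀ hlam.le
      have h7 : 1 ≤ C₁ * (d * ‖zz d c₁ l‖ ^ (d - 1) * Pd d c₁ l) := h6.trans h5
      have h8 := hc.bd l
      have hz0 : 0 ≤ ‖zz d c₁ l‖ := norm_nonneg _
      -- `s B θ ^ l ≤ 2 d C₁ ‖z‖ ^ (d - 1)`
      have h9 : B * θ ^ l * s ≤ 2 * (C₁ * (d * ‖zz d c₁ l‖ ^ (d - 1))) := by
        have h10 : B * θ ^ l * s * Pd d c₁ l ≤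
            2 * (C₁ * (d * ‖zz d c₁ l‖ ^ (d - 1))) * Pd d c₁ l := by
          calc B * θ ^ l * s * Pd d c₁ l ≤ ‖zz d c₁ l‖ := h4
            _ ≤ 2 * 1 := by linarith
            _ ≤ 2 * (C₁ * (d * ‖zz d c₁ l‖ ^ (d - 1) * Pd d c₁ l)) := by gcongr
            _ = _ := by ring
        exact le_of_mul_le_mul_right h10 hPl
      have h10 : ‖zz d c₁ l‖ ^ (d - 1) ≤ 2 ^ (d - 1) * ‖(F d h w)^[l] v‖ ^ (d - 1) := by
        rw [← mul_pow]
        apply pow_le_pow_left₀ hz0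
        linarith [norm_nonneg ((F d h w)^[l] v)]
      have h2d : (2 : ℝ) * 2 ^ (d - 1) = 2 ^ d := by
        rw [← pow_succ']
        congr 1
        omega
      have h11 : B * θ ^ l * s ≤ B * (E * ‖(F d h w)^[l] v‖ ^ (d - 1)) := by
        calc B * θ ^ l * s ≤ 2 * (C₁ * (d * ‖zz d c₁ l‖ ^ (d - 1))) := h9
          _ ≤ 2 * (C₁ * (d * (2 ^ (d - 1) * ‖(F d h w)^[l] v‖ ^ (d - 1)))) := by gcongr
          _ = (2 * 2 ^ (d - 1)) * d * C₁ * ‖(F d h w)^[l] v‖ ^ (d - 1) := by ring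
          _ = 2 ^ d * d * C₁ * ‖(F d h w)^[l] v‖ ^ (d - 1) := by rw [h2d]
          _ = E * B * ‖(F d h w)^[l] v‖ ^ (d - 1) := by rw [hEB]
          _ = _ := by ring
      have h12 : θ ^ l * s ≤ E * ‖(F d h w)^[l] v‖ ^ (d - 1) := by
        rw [mul_assoc] at h11
        exact le_of_mul_le_mul_left h11 hB0
      calc r ≤ s := hrs
        _ = (1 / θ) ^ l * θ ^ l * s := by rw [hθθ, one_mul]
        _ = (1 / θ) ^ l * (θ ^ l * s) := by ring
        _ ≤ (1 / θ) ^ l * (E * ‖(F d h w)^[l] v‖ ^ (d - 1)) := by gcongr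
        _ = E * (1 / θ) ^ l * ‖(F d h w)^[l] v‖ ^ (d - 1) := by ring
        _ ≤ (ε * (1 / θ) ^ (l + 1) + E * (1 / θ) ^ l) * ‖(F d h w)^[l] v‖ ^ (d - 1) := by
            apply mul_le_mul_of_nonneg_right _ (by positivity)
            have : 0 ≤ ε * (1 / θ) ^ (l + 1) := by positivity
            linarith
  · have e1 : ∑ j ∈ Finset.Ico n (n + 1 + k), (4 * d * (4 * d * θ * ε * (1 / θ) ^ (j - n)) +
          2 * C₁ * ε * (1 / lam) ^ (j - n) +
          4 * (ε * (1 / θ) ^ (j - n) + E * (1 / θ) ^ (j - n - 1))) =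
          ∑ i ∈ Finset.range (k + 1),
          (4 * d * (4 * d * θ * ε * (1 / θ) ^ i) + 2 * C₁ * ε * (1 / lam) ^ i +
            4 * (ε * (1 / θ) ^ i + E * (1 / θ) ^ (i - 1))) := by
      rw [Finset.sum_Ico_eq_sum_range, show n + 1 + k - n = k + 1 by omega]
      refine Finset.sum_congr rfl fun i _ => ?_
      rw [Nat.add_sub_cancel_left]
    refine le_trans (le_of_eq e1) ?_
    have h1 := geom_part hiθ hiθ1 (k + 1)
    have h2 := geom_part hil hil1 (k + 1)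
    have h3 := geom_part hiθ hiθ1 k
    rw [← hSθ] at h1 h3
    rw [← hSl] at h2
    have h4 : ∑ i ∈ Finset.range (k + 1), (1 / θ) ^ (i - 1) ≤ 2 * Sθ := by
      rw [Finset.sum_range_succ']
      have h5 : ∑ i ∈ Finset.range k, (1 / θ) ^ (i + 1 - 1) = ∑ i ∈ Finset.range k, (1 / θ) ^ i :=
        Finset.sum_congr rfl fun i _ => by rw [Nat.add_sub_cancel]
      rw [h5, Nat.zero_sub, pow_zero]
      linarith
    have e2 : ∑ i ∈ Finset.range (k + 1),
        (4 * d * (4 * d * θ * ε * (1 / θ) ^ i) + 2 * C₁ * ε * (1 / lam) ^ i +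
            4 * (ε * (1 / θ) ^ i + E * (1 / θ) ^ (i - 1))) =
        ε * ((16 * d ^ 2 * θ + 4) * ∑ i ∈ Finset.range (k + 1), (1 / θ) ^ i +
          2 * C₁ * ∑ i ∈ Finset.range (k + 1), (1 / lam) ^ i) +
          4 * E * ∑ i ∈ Finset.range (k + 1), (1 / θ) ^ (i - 1) := by
      rw [mul_add, Finset.mul_sum, Finset.mul_sum, Finset.mul_sum, Finset.mul_sum, Finset.mul_sum,
        ← Finset.sum_add_distrib, ← Finset.sum_add_distrib]
      refine Finset.sum_congr rfl fun i _ => by ring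
    rw [e2]
    have h5 : ε * ((16 * d ^ 2 * θ + 4) * ∑ i ∈ Finset.range (k + 1), (1 / θ) ^ i +
          2 * C₁ * ∑ i ∈ Finset.range (k + 1), (1 / lam) ^ i) ≤ 1 / 16 := by
      refine le_trans ?_ hε1
      rw [hK]
      gcongr
    have h6 : 4 * E * ∑ i ∈ Finset.range (k + 1), (1 / θ) ^ (i - 1) ≤ 1 / 64 := by
      calc 4 * E * ∑ i ∈ Finset.range (k + 1), (1 / θ) ^ (i - 1) ≤ 4 * E * (2 * Sθ) := by gcongr
        _ = 8 * (E * Sθ) := by ring
        _ ≤ 8 * (1 / 512) := by gcongr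
        _ = 1 / 64 := by norm_num
    linarith

end Pool.Agent.Y500.GA
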